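import Mathlib

namespace Pool.Agent.Results.MP_3ac9ea_co.Stable

open Finset

/-- Restricted growth functions: positive entries, each at most one more than the maximum of the
earlier entries (the maximum of no entries being `0`). -/
def IsRGF {n : ℕ} (w : Fin n → ℕ) : Prop :=
  ∀ i, 1 ≤ w i ∧ w i ≤ 1 + (univ.filter (· < i)).sup w

/-- Avoidance of `1221`. -/
def Avoids {n : ℕ} (w : Fin n → ℕ) : Prop :=
  ¬ ∃ a b c d : Fin n, a < b ∧ b < c ∧ c < d ∧ w a = w d ∧ w d < w b ∧ w b = w c

/-- `rb (w_j)`: the number of distinct larger values to the right of position `j`. -/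
def rbAt {n : ℕ} (w : Fin n → ℕ) (j : Fin n) : ℕ :=
  ((univ.filter fun i => j < i ∧ w j < w i).image w).card

/-- The statistic `rb`. -/
def rb {n : ℕ} (w : Fin n → ℕ) : ℕ := ∑ j, rbAt w j

/-- The coefficient of `q ^ k` in `RB_n (1221)`. -/
noncomputable def coeffRB (n k : ℕ) : ℕ := {w : Fin n → ℕ | IsRGF w ∧ Avoids w ∧ rb w = k}.ncard

theorem occ {n : ℕ} {w : Fin n → ℕ} (h : IsRGF w) : ∀ (m : ℕ) (i : Fin n), i.val = m →
    ∀ a, 1 ≤ a → a < w i → ∃ j, j < i ∧ w j = a := by
  intro m
  induction m using Nat.strong_induction_on with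
  | _ m ih =>
    intro i hi a h1 h2
    have h3 : a ≤ (univ.filter (· < i)).sup w := by have := (h i).2; omega
    obtain ⟨j, hj, h4⟩ := (Finset.le_sup_iff (show ⊥ < a from h1)).1 h3
    have hji : j < i := (mem_filter.1 hj).2
    rcases h4.eq_or_lt with e | e
    · exact ⟨j, hji, e.symm⟩
    · obtain ⟨l, h5, h6⟩ := ih j.val (by rw [← hi]; exact hji) j rfl a h1 e
      exact ⟨l, h5.trans hji, h6⟩

variable {n : ℕ}

theorem ext_iff (w : Fin (n + 2) → ℕ) (h : w (Fin.last _) = w (Fin.last n).castSucc) :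
    (IsRGF w ↔ IsRGF (Fin.init w)) ∧ (Avoids w ↔ Avoids (Fin.init w)) ∧
      rb w = rb (Fin.init w) := by
  have hs : ∀ i : Fin (n + 1), (univ.filter (· < i.castSucc)).sup w =
      (univ.filter (· < i)).sup (Fin.init w) := fun i => by
    apply le_antisymm
    · refine Finset.sup_le fun j hj => ?_
      have hj := (mem_filter.1 hj).2
      obtain ⟨j, rfl⟩ := Fin.exists_castSucc_eq.2 (Fin.ne_last_of_lt hj)
      exact Finset.le_sup (f := Fin.init w) (mem_filter.2 ⟨mem_univ j, by simpa using hj⟩)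
    · refine Finset.sup_le fun j hj => ?_
      exact Finset.le_sup (f := w) (mem_filter.2 ⟨mem_univ j.castSucc, by simpa using hj⟩)
  refine ⟨⟨fun H i => by rw [← hs]; exact H i.castSucc, fun H i => ?_⟩,
    ⟨fun H ⟨a, b, c, d, h1, h2, h3, h4⟩ => H ⟨a.castSucc, b.castSucc, c.castSucc, d.castSucc,
      by simpa using h1, by simpa using h2, by simpa using h3, h4⟩,
    fun H ⟨a, b, c, d, h1, h2, h3, h4, h5, h6⟩ => H ?_⟩, ?_⟩
  · induction i using Fin.lastCases with
    | last =>
      rw [h]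
      exact ⟨(H _).1, (Finset.le_sup (f := w) ((mem_filter (p := (· < Fin.last (n + 1)))).2
        ⟨mem_univ _, Fin.castSucc_lt_last _⟩)).trans (Nat.le_add_left _ _)⟩
    | cast i => rw [hs]; exact H i
  · obtain ⟨c, rfl⟩ := Fin.exists_castSucc_eq.2 (Fin.ne_last_of_lt h3)
    obtain ⟨b, rfl⟩ := Fin.exists_castSucc_eq.2 (Fin.ne_last_of_lt h2)
    obtain ⟨a, rfl⟩ := Fin.exists_castSucc_eq.2 (Fin.ne_last_of_lt h1)
    induction d using Fin.lastCases with
    | last =>
      rw [h] at h4 h5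
      refine ⟨a, b, c, Fin.last n, by simpa using h1, by simpa using h2,
        lt_of_le_of_ne (Fin.le_last c) fun e => ?_, h4, h5, h6⟩
      rw [e] at h6
      omega
    | cast d => exact ⟨a, b, c, d, by simpa using h1, by simpa using h2, by simpa using h3, h4,
        h5, h6⟩
  · unfold rb
    rw [Fin.sum_univ_castSucc, show rbAt w (Fin.last _) = 0 by
      simp [rbAt, Fin.le_last, not_lt_of_ge], add_zero]
    refine sum_congr rfl fun j _ => ?_
    unfold rbAt
    congr 1
    ext x
    simp only [mem_image, mem_filter, mem_univ, true_and]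
    constructor
    · rintro ⟨i, ⟨h1, h2⟩, rfl⟩
      induction i using Fin.lastCases with
      | last =>
        rw [h] at h2 ⊢
        refine ⟨Fin.last n, ⟨lt_of_le_of_ne (Fin.le_last j) fun e => ?_, h2⟩, rfl⟩
        rw [e] at h2
        omega
      | cast i => exact ⟨i, ⟨by simpa using h1, h2⟩, rfl⟩
    · rintro ⟨i, ⟨h1, h2⟩, rfl⟩
      exact ⟨i.castSucc, ⟨by simpa using h1, h2⟩, rfl⟩

theorem last_eq (w : Fin (n + 2) → ℕ) (h1 : IsRGF w) (h2 : Avoids w) (hn : 2 * rb w < n) :
    w (Fin.last _) = w (Fin.last n).castSucc := by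
  by_contra hc
  set Z := univ.filter fun j => rbAt w j = 0 ∧ j ≠ Fin.last _
  have hZ : ∀ j, rbAt w j = 0 → ∀ i, j < i → w i ≤ w j := fun j hj i hi => by
    by_contra h
    have : i ∈ univ.filter fun i => j < i ∧ w j < w i := mem_filter.2 ⟨mem_univ _, hi, by omega⟩
    rw [rbAt, card_eq_zero, image_eq_empty] at hj
    simp [hj] at this
  have key : ∀ i ∈ Z, ∀ j ∈ Z, i < j → w i ≠ w j := fun i hi j hj hij e => by
    have h3 : ∀ p, j < p → w p = w j := fun p hp => by
      by_contra h
      have h4 := hZ i (mem_filter.1 hi).2.1 p (hij.trans hp)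
      obtain ⟨a, h5, h6⟩ := occ h1 _ i rfl (w p) (h1 p).1 (by omega)
      exact h2 ⟨a, i, j, p, h5, hij, hp, h6, by omega, e⟩
    have h4 := (mem_filter.1 hj).2.2
    have h5 : j ≤ (Fin.last n).castSucc := Fin.le_castSucc_iff.2 (by
      simpa using Fin.lt_last_iff_ne_last.2 h4)
    rw [h3 _ (Fin.lt_last_iff_ne_last.2 h4)] at hc
    rcases h5.eq_or_lt with e | e
    · exact hc (by rw [e])
    · exact hc (h3 _ e).symm
  have h0 : w 0 = 1 := by
    have := h1 0
    simp at this
    omega
  have c1 : Z.card ≤ (insert 1 ((univ.filter fun i => 0 < i ∧ w 0 < w i).image w)).card := by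
    refine card_le_card_of_injOn w (fun i _ => ?_) fun i hi j hj e => ?_
    · have := (h1 i).1
      by_cases h : w i = 1
      · simp [h]
      · refine mem_coe.2 (mem_insert_of_mem (mem_image_of_mem _ (mem_filter.2 ⟨mem_univ _,
          Fin.pos_iff_ne_zero.2 fun e => h (e ▸ h0), by omega⟩)))
    · rcases lt_trichotomy i j with h | h | h
      · exact absurd e (key i hi j hj h)
      · exact h
      · exact absurd e.symm (key j hj i hi h)
  have c2 := c1.trans (card_insert_le _ _)
  have c3 : rbAt w 0 ≤ rb w := single_le_sum (f := rbAt w) (fun _ _ => Nat.zero_le _) (mem_univ _)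
  have c4 : (univ.filter fun j => rbAt w j ≠ 0).card ≤ rb w := by
    rw [card_filter]
    exact sum_le_sum fun j _ => by split_ifs <;> omega
  have c5 : (univ : Finset (Fin (n + 2))) ⊆
      insert (Fin.last _) (Z ∪ univ.filter fun j => rbAt w j ≠ 0) := fun j _ => by
    by_cases h : j = Fin.last _ <;> by_cases h' : rbAt w j = 0 <;> simp [Z, h, h']
  have c6 := (card_le_card c5).trans ((card_insert_le _ _).trans
    (Nat.succ_le_succ (card_union_le _ _)))
  rw [card_univ, Fintype.card_fin] at c6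
  change Z.card ≤ rbAt w 0 + 1 at c2
  omega

theorem step (k : ℕ) (hn : 2 * k < n) : coeffRB (n + 2) k = coeffRB (n + 1) k := by
  refine Set.ncard_congr (fun w _ => Fin.init w) (fun w hw => ?_) (fun v w hv hw e => ?_)
    fun v hv => ?_
  · obtain ⟨h1, h2, h3⟩ := ext_iff w (last_eq w hw.1 hw.2.1 (by rw [hw.2.2]; exact hn))
    exact ⟨h1.1 hw.1, h2.1 hw.2.1, h3.symm.trans hw.2.2⟩
  · funext i
    induction i using Fin.lastCases with
    | last =>
      rw [last_eq v hv.1 hv.2.1 (by rw [hv.2.2]; exact hn),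
        last_eq w hw.1 hw.2.1 (by rw [hw.2.2]; exact hn)]
      exact congrFun e _
    | cast i => exact congrFun e i
  · obtain ⟨h1, h2, h3⟩ := ext_iff (Fin.snoc (α := fun _ => ℕ) v (v (Fin.last n))) (by simp)
    rw [Fin.init_snoc] at h1 h2 h3
    exact ⟨_, ⟨h1.2 hv.1, h2.2 hv.2.1, h3.trans hv.2.2⟩, Fin.init_snoc _ _⟩

/-- Every coefficient of `RB_n (1221)` is eventually constant in `n`. -/
theorem result (k : ℕ) : ∃ N, ∀ n, N ≤ n → coeffRB n k = coeffRB N k := by
  refine ⟨2 * k + 2, fun n hn => ?_⟩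
  induction n, hn using Nat.le_induction with
  | base => rfl
  | succ n hn ih =>
    obtain ⟨m, rfl⟩ : ∃ m, n = m + 1 := ⟨n - 1, by omega⟩
    rw [step k (by omega), ih]

end Pool.Agent.Results.MP_3ac9ea_co.Stable
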